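import Pool.Agent.Q30.Deg.Def

/-!
# The relation `deg f = deg g` is definable in the ring `ℂ[X]`

For nonconstant `f`, `g` one has `deg f ≤ deg g` if and only if for every constant `c` there is a
constant `c'` such that the zeros of `f - c` inject into the zeros of `g - c'`; such an injection is
given by a polynomial (interpolation), and the value of a polynomial at the zero of `s - a`, where
`s` is irreducible (of degree one) and `a` is constant, is definable by divisibility.
-/

set_option autoImplicit false
open Polynomial

namespace Pool.Agent.Results.MP_d395f7_lc.EqualDegreeDefinable

open FirstOrder

attribute [local instance] Ring.compatibleRingOfRing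

/-- The relation `deg f = deg g` (with `deg 0 = ⊥`) on `ℂ[X]` is definable in the first-order
language of rings, even without parameters. -/
theorem result : (∅ : Set ℂ[X]).Definable Language.ring
    {v : Fin 2 → ℂ[X] | (v 0).degree = (v 1).degree} :=
  Pool.Agent.Q30.Deg.definable

end Pool.Agent.Results.MP_d395f7_lc.EqualDegreeDefinable
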